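import Pool.Agent.R896.PA.Glue
import Pool.Agent.R896.PA.EXP
import Pool.Agent.R896.PA.PHI
import Pool.Agent.R896.PA.MOM
import Pool.Agent.R896.PA.DIAG
import Pool.Agent.R896.PA.FACTOR
import Pool.Agent.R896.PA.POWER
import Pool.Agent.R896.PA.IDENT
import Pool.Agent.R896.PA.PROD

/-!
# MP_4cf399_an, Q1: every attractor that is a polyhedron is a parallelepiped

The affirmative answer, in every dimension (in particular for all `d ≥ 3`).
-/

open MeasureTheory

namespace Pool.Agent.Results.MP_4cf399_an.PolyhedralAttractors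

/-- A real square matrix is expanding if every (complex) eigenvalue has absolute value
greater than one. -/
def Expanding {d : ℕ} (M : Matrix (Fin d) (Fin d) ℝ) : Prop :=
  ∀ μ ∈ spectrum ℂ (M.map (fun r : ℝ => (r : ℂ))), 1 < ‖μ‖

/-- The piece `M⁻¹ (G + s)`. -/
def piece {d : ℕ} (M : Matrix (Fin d) (Fin d) ℝ) (G : Set (Fin d → ℝ)) (s : Fin d → ℝ) :
    Set (Fin d → ℝ) :=
  (fun x => M⁻¹.mulVec (x + s)) '' G

/-- A nonempty compact set `G` is an attractor if `G = ⋃_{s ∈ S} M⁻¹ (G + s)` for an expanding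
real matrix `M` and a finite set `S` of vectors, distinct pieces meeting in Lebesgue null sets. -/
def IsAttractor {d : ℕ} (G : Set (Fin d → ℝ)) : Prop :=
  IsCompact G ∧ G.Nonempty ∧
    ∃ (M : Matrix (Fin d) (Fin d) ℝ) (S : Finset (Fin d → ℝ)), Expanding M ∧
      G = ⋃ s ∈ S, piece M G s ∧
      ∀ s ∈ S, ∀ t ∈ S, s ≠ t → volume (piece M G s ∩ piece M G t) = 0

/-- A `d`-dimensional convex polytope: a bounded intersection of finitely many closed
half-spaces with nonempty interior. -/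
def IsConvexPolytope {d : ℕ} (P : Set (Fin d → ℝ)) : Prop :=
  (∃ (m : ℕ) (n : Fin m → Fin d → ℝ) (b : Fin m → ℝ), P = {x | ∀ i, n i ⬝ᵥ x ≤ b i}) ∧
    Bornology.IsBounded P ∧ (interior P).Nonempty

/-- A polyhedron, not necessarily convex: a compact set which equals the closure of its
interior, has connected interior and is a finite union of `d`-dimensional convex polytopes. -/
def IsPolyhedron {d : ℕ} (G : Set (Fin d → ℝ)) : Prop :=
  IsCompact G ∧ closure (interior G) = G ∧ IsConnected (interior G) ∧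
    ∃ (N : ℕ) (P : Fin N → Set (Fin d → ℝ)), (∀ j, IsConvexPolytope (P j)) ∧ G = ⋃ j, P j

/-- A parallelepiped: the image of the unit cube under an invertible affine map. -/
def IsParallelepiped {d : ℕ} (G : Set (Fin d → ℝ)) : Prop :=
  ∃ (A : (Fin d → ℝ) ≃ₗ[ℝ] (Fin d → ℝ)) (v : Fin d → ℝ),
    G = (fun x => A x + v) '' Set.Icc 0 1

/-- Every attractor in `ℝ^d` that is a polyhedron is a parallelepiped. -/
theorem result (d : ℕ) (G : Set (Fin d → ℝ)) (hA : IsAttractor G) (hP : IsPolyhedron G) :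
    IsParallelepiped G := by
  obtain ⟨hc, hne, M, S, hM, hG, hd⟩ := hA
  obtain ⟨-, hreg, hconn, N, P, hPP, hGP⟩ := hP
  refine Pool.Agent.R896.PA.attractor_box Pool.Agent.R896.PA.stmtEXP Pool.Agent.R896.PA.stmtPHI
    Pool.Agent.R896.PA.stmtPROD Pool.Agent.R896.PA.stmtPOWER Pool.Agent.R896.PA.stmtMOM
    Pool.Agent.R896.PA.stmtFACTOR Pool.Agent.R896.PA.stmtIDENT Pool.Agent.R896.PA.stmtDIAG
    hc hne hreg hconn.isPreconnected ?_ M S hM hG hd
  rw [hGP]
  refine Pool.Agent.R896.PA.LC'.iUnion fun j => ?_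
  obtain ⟨⟨m, n, b, hPj⟩, -, -⟩ := hPP j
  rw [hPj]
  exact Pool.Agent.R896.PA.LC'.iInter
    (G := fun i => {x : Fin d → ℝ | n i ⬝ᵥ x ≤ b i})
    fun i => Pool.Agent.R896.PA.halfspace_lc (n i) (b i)

end Pool.Agent.Results.MP_4cf399_an.PolyhedralAttractors
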